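import Pool.Agent.V8H88.AB.Rank
import Pool.Agent.Y137.MV.Defs
import Pool.Agent.H204R3.CM.Defs

/-!
# Relations between the conjugates of Weil numbers of generic polynomials
-/

set_option autoImplicit false

namespace Pool.Agent.V8H88.NF

open Polynomial Pool.Agent.W521.Descent Pool.Agent.V8H88.AB NumberField

section

variable {I : Type} [Fintype I] {K : I → Type} [∀ i, Field (K i)] [∀ i, NumberField (K i)]

theorem conj_conj' {F : Type*} [Field F] (φ : F →+* ℂ) :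
    ComplexEmbedding.conjugate (ComplexEmbedding.conjugate φ) = φ := by
  ext x
  simp

/-- The function on the roots given by a function on the embeddings. -/
noncomputable def cfun (π : ∀ i, K i) (n : (Σ i, (K i →+* ℂ)) → ℤ) (i : I) : ℂ → ℤ := by
  classical
  exact fun z => ∑ φ : K i →+* ℂ, if φ (π i) = z then
    n ⟨i, φ⟩ - n ⟨i, ComplexEmbedding.conjugate φ⟩ else 0

omit [Fintype I] in
theorem cfun_apply {π : ∀ i, K i} (hinj : ∀ i, ∀ φ ψ : K i →+* ℂ, φ (π i) = ψ (π i) → φ = ψ)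
    (n : (Σ i, (K i →+* ℂ)) → ℤ) (i : I) (φ : K i →+* ℂ) :
    cfun π n i (φ (π i)) = n ⟨i, φ⟩ - n ⟨i, ComplexEmbedding.conjugate φ⟩ := by
  classical
  unfold cfun
  rw [Finset.sum_eq_single φ]
  · rw [if_pos rfl]
  · intro ψ _ hψ
    rw [if_neg fun h => hψ (hinj i ψ φ h)]
  · intro h
    exact absurd (Finset.mem_univ _) h

/-- The sum over the pairs of embeddings. -/
theorem prod_bar (n : (Σ i, (K i →+* ℂ)) → ℤ) (w : (Σ i, (K i →+* ℂ)) → ℂ) :
    ∏ x : (Σ i, (K i →+* ℂ)), w x ^ n ⟨x.1, ComplexEmbedding.conjugate x.2⟩ =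
      ∏ x : (Σ i, (K i →+* ℂ)), w ⟨x.1, ComplexEmbedding.conjugate x.2⟩ ^ n x := by
  refine Finset.prod_nbij' (fun x => ⟨x.1, ComplexEmbedding.conjugate x.2⟩)
    (fun x => ⟨x.1, ComplexEmbedding.conjugate x.2⟩) (fun _ _ => Finset.mem_univ _)
    (fun _ _ => Finset.mem_univ _) ?_ ?_ ?_
  · rintro ⟨i, φ⟩ _
    rw [conj_conj']
  · rintro ⟨i, φ⟩ _
    rw [conj_conj']
  · rintro ⟨i, φ⟩ _
    simp only [conj_conj']

/-- **Balanced relations.** -/
theorem balanced {q : ℕ} (hq : 0 < q) {g : I → ℕ} {f : I → ℤ[X]}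
    (hf : ∀ i, f i ∈ weilPolys q (g i)) (hgen : ∀ i, IsGeneric (f i))
    (hdiff : Pairwise fun i j => spl (f i) ≠ spl (f j)) {π : ∀ i, K i}
    (hroot : ∀ i (φ : K i →+* ℂ), aeval (φ (π i)) (f i) = 0)
    (hinj : ∀ i, ∀ φ ψ : K i →+* ℂ, φ (π i) = ψ (π i) → φ = ψ)
    (hsurj : ∀ i z, aeval z (f i) = 0 → ∃ φ : K i →+* ℂ, φ (π i) = z)
    {Γ : Set ℂ} (hΓ : Sat Γ) (hqΓ : (q : ℂ) ∈ Γ)
    (hno : ∀ i, ¬ ∀ d, IsOdd (rts (f i)) d → ev (rts (f i)) 1 d ∈ Γ)
    (n : (Σ i, (K i →+* ℂ)) → ℤ) (h : ∏ x : (Σ i, (K i →+* ℂ)), (x.2 (π x.1)) ^ n x ∈ Γ) (i : I)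
    (φ : K i →+* ℂ) : n ⟨i, φ⟩ = n ⟨i, ComplexEmbedding.conjugate φ⟩ := by
  classical
  have hΩ : ∀ i, Nice (rts (f i)) := fun i => nice hq (hf i) (hgen i)
  have hq0 : (q : ℂ) ≠ 0 := by exact_mod_cast hq.ne'
  have hval0 : ∀ x : (Σ i, (K i →+* ℂ)), x.2 (π x.1) ≠ 0 := fun x =>
    root_ne_zero' hq (hf x.1) (hroot x.1 x.2)
  have hbar : ∀ (i : I) (φ : K i →+* ℂ), ComplexEmbedding.conjugate φ (π i) =
      starRingEnd ℂ (φ (π i)) := fun i φ => ComplexEmbedding.conjugate_coe_eq φ (π i)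
  have hodd : ∀ i, IsOdd (rts (f i)) (cfun π n i) := by
    intro i
    constructor
    · intro z hz
      unfold cfun
      refine Finset.sum_eq_zero fun φ _ => ?_
      rw [if_neg]
      rintro rfl
      exact hz (Finset.mem_coe.2 ((mem_rts (hf i).1 _).2 (hroot i φ)))
    · intro z
      by_cases hz : aeval z (f i) = 0
      · obtain ⟨φ, rfl⟩ := hsurj i z hz
        rw [← hbar, cfun_apply hinj, cfun_apply hinj, conj_conj']
        ring
      · have h0 : ∀ w : ℂ, ¬ aeval w (f i) = 0 → cfun π n i w = 0 := by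
          intro w hw
          unfold cfun
          refine Finset.sum_eq_zero fun φ _ => ?_
          rw [if_neg]
          rintro rfl
          exact hw (hroot i φ)
        rw [h0 z hz, h0 _ fun h => hz ?_, neg_zero]
        have h1 := (hΩ i).conj _ ((mem_rts (hf i).1 _).2 h)
        rw [Complex.conj_conj] at h1
        exact (mem_rts (hf i).1 _).1 h1
  -- the value
  have hev : ∀ i, ev (rts (f i)) 1 (cfun π n i) =
      ∏ φ : K i →+* ℂ, (φ (π i)) ^ (n ⟨i, φ⟩ - n ⟨i, ComplexEmbedding.conjugate φ⟩) := by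
    intro i
    unfold ev
    have h1 : rts (f i) = Finset.univ.image (fun φ : K i →+* ℂ => φ (π i)) := by
      ext z
      rw [mem_rts (hf i).1, Finset.mem_image]
      constructor
      · intro hz
        obtain ⟨φ, hφ⟩ := hsurj i z hz
        exact ⟨φ, Finset.mem_univ _, hφ⟩
      · rintro ⟨φ, _, rfl⟩
        exact hroot i φ
    rw [h1, Finset.prod_image fun φ _ ψ _ h => hinj i φ ψ h]
    refine Finset.prod_congr rfl fun φ _ => ?_
    rw [pow_one, cfun_apply hinj]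
  have hprod : ∏ i ∈ (Finset.univ : Finset I), ev (rts (f i)) 1 (cfun π n i) ∈ Γ := by
    have h1 : ∏ i ∈ (Finset.univ : Finset I), ev (rts (f i)) 1 (cfun π n i) =
        ∏ x : (Σ i, (K i →+* ℂ)), (x.2 (π x.1)) ^
          (n x - n ⟨x.1, ComplexEmbedding.conjugate x.2⟩) := by
      rw [← Finset.univ_sigma_univ, Finset.prod_sigma]
      exact Finset.prod_congr rfl fun i _ => hev i
    have h2 : ∏ x : (Σ i, (K i →+* ℂ)), (x.2 (π x.1)) ^
          (n x - n ⟨x.1, ComplexEmbedding.conjugate x.2⟩) =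
        (∏ x : (Σ i, (K i →+* ℂ)), (x.2 (π x.1)) ^ n x) *
          (∏ x : (Σ i, (K i →+* ℂ)), (x.2 (π x.1)) ^
            n ⟨x.1, ComplexEmbedding.conjugate x.2⟩)⁻¹ := by
      rw [← Finset.prod_inv_distrib, ← Finset.prod_mul_distrib]
      refine Finset.prod_congr rfl fun x _ => ?_
      rw [zpow_sub₀ (hval0 x), div_eq_mul_inv]
    have h3 : ∏ x : (Σ i, (K i →+* ℂ)), (x.2 (π x.1)) ^
            n ⟨x.1, ComplexEmbedding.conjugate x.2⟩ =
        (q : ℂ) ^ (∑ x : (Σ i, (K i →+* ℂ)), n x) *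
          (∏ x : (Σ i, (K i →+* ℂ)), (x.2 (π x.1)) ^ n x)⁻¹ := by
      rw [prod_bar n fun x => x.2 (π x.1)]
      have h4 : ∀ x : (Σ i, (K i →+* ℂ)), (ComplexEmbedding.conjugate x.2) (π x.1) =
          q * (x.2 (π x.1))⁻¹ := by
        intro x
        have h5 := mul_conj (hf x.1) (hroot x.1 x.2)
        rw [hbar, ← h5, mul_comm (x.2 (π x.1)), mul_assoc, mul_inv_cancel₀ (hval0 x), mul_one]
      have h5 : ∀ s : Finset (Σ i, (K i →+* ℂ)), ∏ x ∈ s,
          ((ComplexEmbedding.conjugate x.2) (π x.1)) ^ n x =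
            (q : ℂ) ^ (∑ x ∈ s, n x) * (∏ x ∈ s, (x.2 (π x.1)) ^ n x)⁻¹ := by
        intro s
        induction s using Finset.induction_on with
        | empty => simp
        | insert x s hx ih =>
          rw [Finset.prod_insert hx, Finset.sum_insert hx, Finset.prod_insert hx, ih,
            zpow_add₀ hq0, h4, mul_zpow, inv_zpow, mul_inv]
          ring
      exact h5 Finset.univ
    have h0 : ∏ x : (Σ i, (K i →+* ℂ)), (x.2 (π x.1)) ^ n x ≠ 0 :=
      Finset.prod_ne_zero_iff.2 fun x _ => zpow_ne_zero _ (hval0 x)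
    rw [h1, h2, h3]
    exact hΓ.mul _ h _ (hΓ.inv _ (hΓ.mul _ (hΓ.zpow hqΓ hq0 _) _ (hΓ.inv _ h)))
  have hc0 : cfun π n = 0 := by
    by_contra hne
    obtain ⟨i, _, hi⟩ := core (fun i => rts (f i)) hΩ (fun _ => 1)
      (fun i j hij => exists_diff (hf i).1 (hf j).1 (hdiff hij)) hΓ Finset.univ (cfun π n) hodd
      (fun i hi => absurd (Finset.mem_univ i) hi) hne hprod
    exact hno i hi
  have h1 := cfun_apply hinj n i φ
  rw [hc0] at h1
  have h2 : (0 : ℤ) = n ⟨i, φ⟩ - n ⟨i, ComplexEmbedding.conjugate φ⟩ := h1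
  omega

end

end Pool.Agent.V8H88.NF
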