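import Pool.Agent.V8H88.AB.Defs
import Pool.Agent.W484.TB.Pair
import Pool.Agent.Y137.SL.Defs
import Pool.Agent.TH170.FT.TateDefs

/-!
# Abelian varieties with one Frobenius element with given characteristic polynomial: definitions
-/

set_option autoImplicit false

namespace Pool.Agent.V8H88.NF

open Polynomial Module Pool.Agent.H204R3.GP Pool.Agent.TH170.FT Pool.Agent.Y137.MV
  Pool.Agent.Y137.SL Pool.Agent.W484.TB

/-- The cyclotomic character `χ` takes the value `q` at `γ`, and the characteristic polynomial of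
`ρ γ` is the product of the `f i`. -/
def IsFrobenius {k V Γ : Type} [Field k] [AddCommGroup V] [Module k V] [FiniteDimensional k V]
    [Group Γ] (ρ : Representation k Γ V) (χ : Γ →* k) (γ : Γ) (q : ℕ) {I : Type} [Fintype I]
    (f : I → ℤ[X]) : Prop :=
  χ γ = q ∧ (ρ γ).charpoly = ∏ i, (f i).map (Int.castRingHom k)

/-- The Tate conjecture for all powers of the abelian varieties with one Frobenius element with the
characteristic polynomial `∏ i, f i`, for the prime number `ℓ`. -/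
def TatePowers (q : ℕ) {I : Type} [Fintype I] (f : I → ℤ[X]) (ℓ : ℕ) [Fact ℓ.Prime] : Prop :=
  ∀ (V Γ : Type) [AddCommGroup V] [Module ℚ_[ℓ] V] [FiniteDimensional ℚ_[ℓ] V] [Group Γ]
    (ρ : Representation ℚ_[ℓ] Γ V) (χ : Γ →* ℚ_[ℓ]) (ω : V →ₗ[ℚ_[ℓ]] V →ₗ[ℚ_[ℓ]] ℚ_[ℓ])
    (D : ∀ n : ℕ, Set ((Fin n → V) [⋀^Fin 2]→ₗ[ℚ_[ℓ]] ℚ_[ℓ]))
    (C : ∀ n m : ℕ, Set ((Fin n → V) [⋀^Fin m × Fin 2]→ₗ[ℚ_[ℓ]] ℚ_[ℓ])),
    IsTateModule ρ χ ω → IsCycleClasses ρ χ D C → (∃ γ, IsFrobenius ρ χ γ q f) →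
      ∀ (n m : ℕ) (x : (Fin n → V) [⋀^Fin m × Fin 2]→ₗ[ℚ_[ℓ]] ℚ_[ℓ]),
        IsTateClass ρ χ m x → x ∈ Submodule.span ℚ_[ℓ] (C n m)

/-- `z` is a product of an integral power of `q` and of integral powers of complex roots of `h`. -/
def IsMonomial (q : ℕ) (h : ℤ[X]) (z : ℂ) : Prop :=
  ∃ (N : ℕ) (α : Fin N → ℂ) (e : Fin N → ℤ) (m : ℤ), (∀ j, aeval (α j) h = 0) ∧
    z = (q : ℂ) ^ m * ∏ j, α j ^ e j

/-- `V` is the rational Tate module of an abelian variety with coefficients in `k`, `ρ` the action of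
the Galois group, `χ` the cyclotomic character and `ω` the Weil pairing of a polarization. The first
property is a theorem of Faltings. -/
structure IsTate {k V Γ : Type} [Field k] [AddCommGroup V] [Module k V] [Group Γ]
    (ρ : Representation k Γ V) (χ : Γ →* k) (ω : V →ₗ[k] V →ₗ[k] k) : Prop where
  semisimple : Y137.MV.FiniteIndexSemisimple ρ
  alternating : ∀ v, ω v v = 0
  nondegenerate : ∀ u, (∀ v, ω v u = 0) → u = 0
  equivariant : ∀ s u v, ω (ρ s u) (ρ s v) = χ s * ω u v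

/-- The eigenvalues of `T` are roots of a rational polynomial all of whose complex roots lie in
`S`. -/
def EigenvaluesIn {k M : Type} [Field k] [CharZero k] [AddCommGroup M] [Module k M] (T : M →ₗ[k] M)
    (S : Set ℂ) : Prop :=
  ∃ h : ℚ[X], h ≠ 0 ∧ aeval T (h.map (algebraMap ℚ k)) = 0 ∧ ∀ z : ℂ, aeval z h = 0 → z ∈ S

/-- The Tate classes on the products `A ^ n × B` are generated by those on `A ^ n` of degree two and
those on `B`, whenever `A` has a Frobenius element `γ` with the characteristic polynomial `∏ i, f i`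
and the eigenvalues of `γ` on the cohomology `M` of `B` lie in `S`. -/
def TateTimes (q : ℕ) {I : Type} [Fintype I] (f : I → ℤ[X]) (S : Set ℂ) : Prop :=
  ∀ (k : Type) [Field k] [CharZero k] (V : Type) [AddCommGroup V] [Module k V]
    [FiniteDimensional k V] (M : Type) [AddCommGroup M] [Module k M] [FiniteDimensional k M]
    (Γ : Type) [Group Γ] (ρ : Representation k Γ V) (τ : Representation k Γ M) (χ : Γ →* k)
    (ω : V →ₗ[k] V →ₗ[k] k) (γ : Γ), IsTate ρ χ ω → IsFrobenius ρ χ γ q f →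
    EigenvaluesIn (τ γ) S → ClassesSplit ρ χ τ

end Pool.Agent.V8H88.NF
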