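import Pool.Agent.V8H88.AB.Gal

/-!
# The CM field given by a generic Weil polynomial
-/

set_option autoImplicit false

namespace Pool.Agent.V8H88.NF

open Polynomial Pool.Agent.W521.Descent Pool.Agent.V8H88.AB NumberField Module

/-- A criterion for CM fields. -/
theorem cm_of_conj (K : Type) [Field K] [NumberField K]
    (hc : ∀ a : K, ∃ a' : K, ∀ φ : K →+* ℂ, φ a' = (starRingEnd ℂ) (φ a))
    (hΦ : ∀ φ : K →+* ℂ, ComplexEmbedding.conjugate φ ≠ φ) : IsCMField K := by
  classical
  choose s hs using hc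
  obtain ⟨φ₀⟩ : Nonempty (K →+* ℂ) := inferInstance
  let σ : K →+* K :=
    { toFun := s
      map_one' := φ₀.injective (by rw [hs, map_one, map_one])
      map_mul' := fun a b => φ₀.injective (by rw [hs, map_mul, map_mul, map_mul, hs, hs])
      map_zero' := φ₀.injective (by rw [hs, map_zero, map_zero])
      map_add' := fun a b => φ₀.injective (by rw [hs, map_add, map_add, map_add, hs, hs]) }
  have hσ : ∀ (φ : K →+* ℂ) a, φ (σ a) = (starRingEnd ℂ) (φ a) := fun φ a => hs a φ
  have hσσ : σ.comp σ = RingHom.id K := by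
    ext a
    refine φ₀.injective ?_
    rw [RingHom.comp_apply, hσ, hσ, Complex.conj_conj]
    rfl
  let τ : K ≃ₐ[ℚ] K := AlgEquiv.ofRingEquiv (f := RingEquiv.ofRingHom σ σ hσσ hσσ)
    fun r => map_ratCast _ r
  have hτ : ∀ (φ : K →+* ℂ) a, φ (τ a) = (starRingEnd ℂ) (φ a) := fun φ a => hs a φ
  have hττ : τ * τ = 1 := by
    ext a
    refine φ₀.injective ?_
    rw [AlgEquiv.mul_apply, hτ, hτ, Complex.conj_conj]
    rfl
  have hτ1 : τ ≠ 1 := by
    intro h1
    apply hΦ φ₀
    ext a
    have h2 := hτ φ₀ a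
    rw [h1, AlgEquiv.one_apply] at h2
    exact h2.symm
  have hord : orderOf τ = 2 := by
    refine orderOf_eq_prime ?_ hτ1
    rw [pow_two, hττ]
  let H : Subgroup (K ≃ₐ[ℚ] K) := Subgroup.zpowers τ
  let L : IntermediateField ℚ K := IntermediateField.fixedField H
  have hL : ∀ x : K, x ∈ L → τ x = x := by
    intro x hx
    have h1 := (IntermediateField.mem_fixedField_iff H x).1 hx τ (Subgroup.mem_zpowers τ)
    exact h1
  have i1 : IsTotallyComplex K := ⟨fun w => by
    rw [InfinitePlace.isComplex_iff, ComplexEmbedding.isReal_iff]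
    exact hΦ _⟩
  have i2 : IsTotallyReal L := ⟨fun w => by
    obtain ⟨W, rfl⟩ := w.comap_surjective (K := K)
    beta_reduce
    rw [← InfinitePlace.mk_embedding W, InfinitePlace.comap_mk, InfinitePlace.isReal_mk_iff,
      ComplexEmbedding.isReal_iff]
    ext x
    have h1 := hτ W.embedding (algebraMap L K x)
    have h2 : τ (algebraMap L K x) = algebraMap L K x := hL _ x.2
    rw [h2] at h1
    exact h1.symm⟩
  have i3 : Algebra.IsQuadraticExtension L K := ⟨by
    have h1 : finrank L K = Nat.card H := IntermediateField.finrank_fixedField_eq_card H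
    rw [h1, Nat.card_zpowers, hord]⟩
  exact IsCMField.ofCMExtension L K

theorem aeval_map_int {R : Type*} [CommRing R] [Algebra ℚ R] [Algebra ℤ R] (f : ℤ[X]) (x : R) :
    aeval x (f.map (Int.castRingHom ℚ)) = aeval x f := by
  rw [aeval_def, eval₂_map, aeval_def, RingHom.ext_int ((algebraMap ℚ R).comp (Int.castRingHom ℚ))
    (algebraMap ℤ R)]

/-- **The field.** -/
theorem exists_field {q g : ℕ} (hq : 0 < q) {f : ℤ[X]} (hf : f ∈ weilPolys q g)
    (hgen : IsGeneric f) : ∃ (K : Type) (_ : Field K) (_ : NumberField K) (_ : IsCMField K) (π : K),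
      IntermediateField.adjoin ℚ {π} = ⊤ ∧ π * IsCMField.complexConj K π = q ∧
        minpoly ℚ π = f.map (Int.castRingHom ℚ) ∧ (∀ φ : K →+* ℂ, aeval (φ π) f = 0) ∧
          (∀ φ ψ : K →+* ℂ, φ π = ψ π → φ = ψ) ∧
            ∀ z : ℂ, aeval z f = 0 → ∃ φ : K →+* ℂ, φ π = z := by
  classical
  set P : ℚ[X] := f.map (Int.castRingHom ℚ) with hP
  have hPm : P.Monic := hf.1.map _
  have hirr : Fact (Irreducible P) := ⟨hgen.irreducible⟩
  let K : Type := AdjoinRoot P
  let π : K := AdjoinRoot.root P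
  have hfin : FiniteDimensional ℚ K := (AdjoinRoot.powerBasis hPm.ne_zero).finite
  have hch : CharZero K := charZero_of_injective_algebraMap (algebraMap ℚ K).injective
  have hNF : NumberField K := { to_charZero := hch, to_finiteDimensional := hfin }
  have hroot0 : aeval π f = 0 := by
    have h := AdjoinRoot.eval₂_root P
    rw [← aeval_map_int f π]
    exact h
  have hroot : ∀ φ : K →+* ℂ, aeval (φ π) f = 0 := by
    intro φ
    have h := Polynomial.hom_eval₂ f (algebraMap ℤ K) φ π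
    rw [RingHom.ext_int (φ.comp (algebraMap ℤ K)) (algebraMap ℤ ℂ)] at h
    have h2 : eval₂ (algebraMap ℤ K) π f = 0 := hroot0
    rw [h2, map_zero] at h
    exact h.symm
  have hinj : ∀ (R : Type) [Field R] [CharZero R] (φ ψ : K →+* R), φ π = ψ π → φ = ψ := by
    intro R _ _ φ ψ h
    exact AdjoinRoot.ringHom_ext (RingHom.ext_rat _ _) h
  have hsurj : ∀ z : ℂ, aeval z f = 0 → ∃ φ : K →+* ℂ, φ π = z := by
    intro z hz
    have h1 : eval₂ (algebraMap ℚ ℂ) z P = 0 := by
      have h2 := aeval_map_int f z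
      rw [hz] at h2
      exact h2
    exact ⟨AdjoinRoot.lift (algebraMap ℚ ℂ) z h1, AdjoinRoot.lift_root h1⟩
  obtain ⟨φ₀⟩ : Nonempty (K →+* ℂ) := inferInstance
  have hΩ := nice hq hf hgen
  have hπ0 : π ≠ 0 := by
    intro h0
    have h1 := root_ne_zero' hq hf (hroot φ₀)
    rw [h0, map_zero] at h1
    exact h1 rfl
  -- complex conjugation
  have hbar : ∀ φ : K →+* ℂ, φ (q * π⁻¹) = starRingEnd ℂ (φ π) := by
    intro φ
    have h1 := mul_conj hf (hroot φ)
    rw [map_mul, map_inv₀, map_natCast, ← h1, mul_comm (φ π), mul_assoc,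
      mul_inv_cancel₀ (root_ne_zero' hq hf (hroot φ)), mul_one]
  have hbar0 : eval₂ (algebraMap ℚ K) (q * π⁻¹) P = 0 := by
    have h1 : aeval ((q : K) * π⁻¹) f = 0 := by
      apply φ₀.injective
      have h := Polynomial.hom_eval₂ f (algebraMap ℤ K) φ₀ ((q : K) * π⁻¹)
      rw [RingHom.ext_int (φ₀.comp (algebraMap ℤ K)) (algebraMap ℤ ℂ), hbar] at h
      have h2 : eval₂ (algebraMap ℤ ℂ) (starRingEnd ℂ (φ₀ π)) f = 0 := by
        have h3 := hΩ.conj _ ((mem_rts hf.1 _).2 (hroot φ₀))
        exact (mem_rts hf.1 _).1 h3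
      rw [map_zero]
      exact h.trans h2
    rw [← aeval_map_int f] at h1
    exact h1
  let σ : K →+* K := AdjoinRoot.lift (algebraMap ℚ K) (q * π⁻¹) hbar0
  have hσ : ∀ (φ : K →+* ℂ) (x : K), φ (σ x) = starRingEnd ℂ (φ x) := by
    intro φ x
    have h1 : φ.comp σ = (starRingEnd ℂ).comp φ := by
      refine hinj ℂ _ _ ?_
      rw [RingHom.comp_apply, RingHom.comp_apply, ← hbar φ]
      exact congrArg φ (AdjoinRoot.lift_root hbar0)
    exact congrArg (fun θ : K →+* ℂ => θ x) h1
  have hCM : IsCMField K := cm_of_conj K (fun a => ⟨σ a, fun φ => hσ φ a⟩) (by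
    intro φ h
    have h1 := congrArg (fun θ : K →+* ℂ => θ π) h
    simp only [ComplexEmbedding.conjugate_coe_eq] at h1
    exact hΩ.ne_conj ((mem_rts hf.1 _).2 (hroot φ)) h1.symm)
  refine ⟨K, inferInstance, hNF, hCM, π, IntermediateField.adjoin_root_eq_top P, ?_, ?_, hroot,
    hinj ℂ, hsurj⟩
  · apply φ₀.injective
    rw [map_mul, IsCMField.complexEmbedding_complexConj, mul_conj hf (hroot φ₀), map_natCast]
  · have h1 := AdjoinRoot.minpoly_root hPm.ne_zero
    rw [hPm.leadingCoeff, inv_one, map_one, mul_one] at h1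
    exact h1

end Pool.Agent.V8H88.NF
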