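import Pool.Agent.V8H88.NF.Defs
import Pool.Agent.V8H88.AB.Rank

/-!
# The eigenvalues on the cohomology of abelian varieties of small dimension
-/

set_option autoImplicit false

namespace Pool.Agent.V8H88.NF

open Polynomial Pool.Agent.W521.Descent Pool.Agent.V8H88.AB Pool.Agent.W484.TB

/-- There are at most `r` pairs of complex conjugate roots which are not real. -/
theorem card_upper_le {q r : ℕ} {h : ℤ[X]} (hh : h ∈ weilPolys q r) :
    ((rts h).filter fun z => 0 < z.im).card ≤ r := by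
  classical
  have hconj : ∀ z ∈ rts h, starRingEnd ℂ z ∈ rts h := by
    intro z hz
    rw [mem_rts hh.1] at hz ⊢
    have h1 := Polynomial.hom_eval₂ h (algebraMap ℤ ℂ) (starRingEnd ℂ) z
    rw [RingHom.ext_int ((starRingEnd ℂ).comp (algebraMap ℤ ℂ)) (algebraMap ℤ ℂ)] at h1
    have h2 : eval₂ (algebraMap ℤ ℂ) z h = 0 := hz
    rw [h2, map_zero] at h1
    exact h1.symm
  have h1 : ((rts h).filter fun z => 0 < z.im) ∪ ((rts h).filter fun z => 0 < z.im).image
      (starRingEnd ℂ) ⊆ rts h := by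
    intro z hz
    rcases Finset.mem_union.1 hz with h | h
    · exact (Finset.mem_filter.1 h).1
    · obtain ⟨w, hw, rfl⟩ := Finset.mem_image.1 h
      exact hconj _ (Finset.mem_filter.1 hw).1
  have h2 : Disjoint ((rts h).filter fun z => 0 < z.im) (((rts h).filter fun z => 0 < z.im).image
      (starRingEnd ℂ)) := by
    rw [Finset.disjoint_left]
    intro z hz hz'
    obtain ⟨w, hw, rfl⟩ := Finset.mem_image.1 hz'
    have h3 := (Finset.mem_filter.1 hz).2
    have h4 := (Finset.mem_filter.1 hw).2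
    rw [Complex.conj_im] at h3
    linarith
  have h3 := Finset.card_le_card h1
  rw [Finset.card_union_of_disjoint h2, Finset.card_image_of_injective _ (starRingEnd ℂ).injective]
    at h3
  have h4 : (rts h).card ≤ 2 * r := by
    rw [← hh.2.1, ← hh.1.natDegree_map (algebraMap ℤ ℂ)]
    exact (Multiset.toFinset_card_le _).trans (Polynomial.card_roots' _)
  omega

/-- **The rank.** -/
theorem rank_monomials {q r : ℕ} (hq : 0 < q) {h : ℤ[X]} (hh : h ∈ weilPolys q r) {S : Set ℂ}
    (hS : ∀ z ∈ S, IsMonomial q h z) : RankLEOver ⊥ r S := by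
  classical
  set P := (rts h).filter fun z => 0 < z.im with hP
  have hPr : P.card ≤ r := card_upper_le hh
  have hPm : ∀ z ∈ P, aeval z h = 0 := fun z hz => (mem_rts hh.1 z).1 (Finset.mem_filter.1 hz).1
  let u : Fin r → ℂ := fun j => if hj : (j : ℕ) < P.card then (P.equivFin.symm ⟨j, hj⟩ : ℂ) else 1
  have hu0 : ∀ j, u j ≠ 0 := by
    intro j
    simp only [u]
    split_ifs with hj
    · exact root_ne_zero' hq hh (hPm _ (P.equivFin.symm ⟨j, hj⟩).2)
    · exact one_ne_zero
  have huP : ∀ z ∈ P, ∃ j, u j = z := by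
    intro z hz
    refine ⟨⟨P.equivFin ⟨z, hz⟩, lt_of_lt_of_le (P.equivFin ⟨z, hz⟩).2 hPr⟩, ?_⟩
    simp only [u, Fin.is_lt, dif_pos, Fin.eta, Equiv.symm_apply_apply]
  have hq0 : (q : ℂ) ≠ 0 := by exact_mod_cast hq.ne'
  have hqU : InU ⊥ u (q : ℂ) := ⟨1, q, 0, one_pos, natCast_mem _ q, hq0, by simp⟩
  have hPU : ∀ z ∈ P, InU ⊥ u z := by
    intro z hz
    obtain ⟨j, hj⟩ := huP z hz
    refine ⟨1, 1, Pi.single j 1, one_pos, one_mem _, one_ne_zero, ?_⟩
    rw [pow_one, one_mul, Finset.prod_eq_single j]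
    · rw [Pi.single_eq_same, zpow_one, hj]
    · intro i _ hi
      rw [Pi.single_eq_of_ne hi, zpow_zero]
    · intro h
      exact absurd (Finset.mem_univ _) h
  have hroot : ∀ z : ℂ, aeval z h = 0 → InU ⊥ u z := by
    intro z hz
    have hzm := (mem_rts hh.1 z).2 hz
    rcases lt_trichotomy z.im 0 with h1 | h1 | h1
    · have h2 : starRingEnd ℂ z ∈ P := by
        rw [hP, Finset.mem_filter]
        refine ⟨?_, ?_⟩
        · rw [mem_rts hh.1]
          have h1 := Polynomial.hom_eval₂ h (algebraMap ℤ ℂ) (starRingEnd ℂ) z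
          rw [RingHom.ext_int ((starRingEnd ℂ).comp (algebraMap ℤ ℂ)) (algebraMap ℤ ℂ)] at h1
          have h2 : eval₂ (algebraMap ℤ ℂ) z h = 0 := hz
          rw [h2, map_zero] at h1
          exact h1.symm
        · rw [Complex.conj_im]
          linarith
      have h3 : z = q * (starRingEnd ℂ z)⁻¹ := by
        have h0 : starRingEnd ℂ z ≠ 0 := root_ne_zero' hq hh (hPm _ h2)
        rw [← mul_conj hh hz, mul_assoc, mul_inv_cancel₀ h0, mul_one]
      rw [h3]
      exact hqU.mul hu0 (hPU _ h2).inv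
    · refine ⟨2, q, 0, two_pos, natCast_mem _ q, hq0, ?_⟩
      have h2 := mul_conj hh hz
      rw [Complex.conj_eq_iff_im.2 h1] at h2
      rw [pow_two, h2]
      simp
    · exact hPU z (Finset.mem_filter.2 ⟨hzm, h1⟩)
  have hone : InU ⊥ u (1 : ℂ) := ⟨1, 1, 0, one_pos, one_mem _, one_ne_zero, by simp⟩
  have hpow : ∀ x : ℂ, InU ⊥ u x → ∀ n : ℕ, InU ⊥ u (x ^ n) := by
    intro x hx n
    induction n with
    | zero =>
      rw [pow_zero]
      exact hone
    | succ n ih =>
      rw [pow_succ]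
      exact ih.mul hu0 hx
  have hzpow : ∀ x : ℂ, InU ⊥ u x → ∀ n : ℤ, InU ⊥ u (x ^ n) := by
    intro x hx n
    cases n with
    | ofNat n =>
      rw [Int.ofNat_eq_natCast, zpow_natCast]
      exact hpow x hx n
    | negSucc n =>
      rw [zpow_negSucc]
      exact (hpow x hx _).inv
  have hprod : ∀ (N : ℕ) (β : Fin N → ℂ), (∀ j, InU ⊥ u (β j)) → InU ⊥ u (∏ j, β j) := by
    intro N
    induction N with
    | zero =>
      intro β _
      rw [Finset.univ_eq_empty, Finset.prod_empty]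
      exact hone
    | succ N ih =>
      intro β hβ
      rw [Fin.prod_univ_succ]
      exact (hβ 0).mul hu0 (ih _ fun j => hβ _)
  refine ⟨u, hu0, fun z hz => ?_⟩
  obtain ⟨N, α, e, m, hα, rfl⟩ := hS z hz
  exact (hzpow _ hqU m).mul hu0 (hprod N _ fun j => hzpow _ (hroot _ (hα j)) _)

end Pool.Agent.V8H88.NF
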