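import Pool.Agent.V8H88.NF.Defs
import Pool.Agent.V8H88.NF.Bal
import Pool.Agent.V8H88.NF.Fld
import Pool.Agent.V8H88.NF.Small
import Pool.Agent.Y1.TS.Split
import Pool.Agent.TH170.FT.Tate

/-!
# The Tate conjecture from one Frobenius element whose characteristic polynomial is a product of
generic polynomials with different splitting fields
-/

set_option autoImplicit false

namespace Pool.Agent.V8H88.NF

open Polynomial Pool.Agent.W521.Descent Pool.Agent.V8H88.AB NumberField Module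
  Pool.Agent.H204R3.GP Pool.Agent.H204R3.CM Pool.Agent.TH170.FT Pool.Agent.Y137.MV
  Pool.Agent.Y137.SL Pool.Agent.W484.TB Pool.Agent.Y1.TS Pool.Agent.H204R3.SP

/-- The roots of a generic polynomial are not all rational. -/
theorem not_le_bot {q g : ℕ} (hq : 0 < q) {f : ℤ[X]} (hf : f ∈ weilPolys q g)
    (hgen : IsGeneric f) (hg : 0 < g) : ¬ spl f ≤ ⊥ := by
  intro h
  have hΩ := nice hq hf hgen
  have hcard := card_rts hf hgen.irreducible
  obtain ⟨z, hz⟩ : (rts f).Nonempty := by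
    rw [← Finset.card_pos, hcard]
    omega
  have h1 : z ∈ (⊥ : IntermediateField ℚ ℂ) :=
    h (IntermediateField.subset_adjoin _ _ ((mem_rts hf.1 z).1 hz))
  obtain ⟨r, hr⟩ := IntermediateField.mem_bot.1 h1
  apply hΩ.ne_conj hz
  rw [← hr, eq_ratCast, map_ratCast]

theorem galois_bot : IsGalois ℚ (⊥ : IntermediateField ℚ ℂ) :=
  IsGalois.of_algEquiv (IntermediateField.botEquiv ℚ ℂ).symm

theorem pos_of_generic {q g : ℕ} {f : ℤ[X]} (hf : f ∈ weilPolys q g) (hgen : IsGeneric f) :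
    0 < g := by
  by_contra h
  have h1 : g = 0 := by omega
  have h2 : f.natDegree = 0 := by rw [hf.2.1, h1]
  have h3 : f = 1 := by
    rw [Polynomial.eq_C_of_natDegree_eq_zero h2]
    have h4 := hf.1
    rw [Polynomial.Monic, Polynomial.leadingCoeff, h2] at h4
    rw [h4, map_one]
  have h4 := hgen.irreducible
  rw [h3, Polynomial.map_one] at h4
  exact not_irreducible_one h4

section family

variable {I : Type} [Fintype I] {K : I → Type} [∀ i, Field (K i)] [∀ i, NumberField (K i)]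
  [∀ i, IsCMField (K i)] {q : ℕ} {g : I → ℕ} {f : I → ℤ[X]} {π : ∀ i, K i}

omit [∀ i, IsCMField (K i)] in
/-- Maximal angle rank. -/
theorem angle (hq : 0 < q)
    (hf : ∀ i, f i ∈ weilPolys q (g i)) (hgen : ∀ i, IsGeneric (f i))
    (hdiff : Pairwise fun i j => spl (f i) ≠ spl (f j))
    (hroot : ∀ i (φ : K i →+* ℂ), aeval (φ (π i)) (f i) = 0)
    (hinj : ∀ i, ∀ φ ψ : K i →+* ℂ, φ (π i) = ψ (π i) → φ = ψ)
    (hsurj : ∀ i z, aeval z (f i) = 0 → ∃ φ : K i →+* ℂ, φ (π i) = z) :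
    MaximalAngleRank q π := by
  intro r n hrel i φ
  have hu : ∀ j : Fin 0, (Fin.elim0 j : ℂ) ≠ 0 := fun j => j.elim0
  let u : Fin 0 → ℂ := fun j => j.elim0
  have hq0 : (q : ℂ) ≠ 0 := by exact_mod_cast hq.ne'
  have hΓ : Sat (gam (⊥ : IntermediateField ℚ ℂ) u) := sat_gam fun j => j.elim0
  have hqΓ : (q : ℂ) ∈ gam (⊥ : IntermediateField ℚ ℂ) u := natCast_mem_gam hq.ne'
  have : FiniteDimensional ℚ (⊥ : IntermediateField ℚ ℂ) := inferInstance
  have : IsGalois ℚ (⊥ : IntermediateField ℚ ℂ) := galois_bot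
  refine balanced hq hf hgen hdiff hroot hinj hsurj hΓ hqΓ (fun i => ?_) n ?_ i φ
  · exact not_all ⊥ u (fun j => j.elim0) hq (hf i) (hgen i) (pos_of_generic (hf i) (hgen i))
      (not_le_bot hq (hf i) (hgen i) (pos_of_generic (hf i) (hgen i))) one_pos
  · rw [hrel]
    exact hΓ.zpow hqΓ hq0 r

/-- The condition on the eigenvalues. -/
theorem forces (hq : 0 < q)
    (hf : ∀ i, f i ∈ weilPolys q (g i)) (hgen : ∀ i, IsGeneric (f i))
    (hdiff : Pairwise fun i j => spl (f i) ≠ spl (f j))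
    (hroot : ∀ i (φ : K i →+* ℂ), aeval (φ (π i)) (f i) = 0)
    (hinj : ∀ i, ∀ φ ψ : K i →+* ℂ, φ (π i) = ψ (π i) → φ = ψ)
    (hsurj : ∀ i z, aeval z (f i) = 0 → ∃ φ : K i →+* ℂ, φ (π i) = z)
    (E : IntermediateField ℚ ℂ) [FiniteDimensional ℚ E] [IsGalois ℚ E] (r : ℕ)
    (hE : ∀ i, r < g i ∧ ¬ spl (f i) ≤ E) {h : ℚ[X]}
    (hrank : RankLEOver E r {ρ : ℂ | aeval ρ h = 0})
    {L : Type*} [Field L] [NumberField L] [IsGalois ℚ L] (j : L →+* ℂ)
    (β : L) (hβ : aeval (j β) h = 0) (i : I) : Forces π β i := by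
  classical
  have hβ0 : j β ≠ 0 := by
    intro h0
    rw [h0] at hβ
    exact zero_not_rank_over hrank hβ
  obtain ⟨u, hu0, hu⟩ := hrank
  intro T N J hN hβN φ
  let J' : (Σ i, (K i →+* L)) → Σ i, (K i →+* ℂ) := fun x => ⟨x.1, j.comp x.2⟩
  have hJ : Function.Injective J' := by
    rintro ⟨a, φ⟩ ⟨b, ψ⟩ h
    simp only [J', Sigma.mk.injEq] at h
    obtain ⟨rfl, h⟩ := h
    rw [H194R3.CM.comp_injective j (eq_of_heq h)]
  let n : (Σ i, (K i →+* ℂ)) → ℤ := fun x =>
    (N : ℤ) * ((Finset.univ.filter (fun l => J' (J l) = x)).card : ℤ)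
  have hprod : ∏ x : (Σ i, (K i →+* ℂ)), (x.2 (π x.1)) ^ n x = (j β) ^ N := by
    have h0 := congrArg j hβN
    rw [map_pow, map_prod] at h0
    rw [h0]
    have h2 : ∀ x : Σ i, (K i →+* ℂ), (x.2 (π x.1)) ^ n x =
        ∏ l ∈ Finset.univ.filter (fun l => J' (J l) = x), j ((H204R3.GP.val π (J l)) ^ N) := by
      intro x
      have h3 : ∀ l ∈ Finset.univ.filter (fun l => J' (J l) = x),
          j ((H204R3.GP.val π (J l)) ^ N) = (x.2 (π x.1)) ^ N := by
        intro l hl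
        rw [← (Finset.mem_filter.1 hl).2, map_pow]
        rfl
      rw [Finset.prod_congr rfl h3, Finset.prod_const, ← pow_mul]
      simp only [n]
      rw [← Nat.cast_mul, zpow_natCast]
    rw [Finset.prod_congr rfl (fun x _ => h2 x)]
    rw [Finset.prod_fiberwise (s := Finset.univ) (g := fun l => J' (J l))
      (f := fun l => j ((H204R3.GP.val π (J l)) ^ N))]
  have hΓ : Sat (gam E u) := sat_gam hu0
  have hβΓ : j β ∈ gam E u := mem_gam_of_roots hu hβ
  have hbal := balanced hq hf hgen hdiff hroot hinj hsurj hΓ (natCast_mem_gam hq.ne')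
    (fun i => not_all E u hu0 hq (hf i) (hgen i) (hE i).1 (hE i).2 one_pos) n (by
      rw [hprod]
      exact hΓ.pow hβΓ hβ0 N) i (j.comp φ)
  have hN0 : (N : ℤ) ≠ 0 := by exact_mod_cast hN.ne'
  have h10 := mul_left_cancel₀ hN0 hbal
  have h4 : (Finset.univ.filter (fun l => J l = ⟨i, φ⟩)).card =
      (Finset.univ.filter (fun l => J' (J l) = ⟨i, j.comp φ⟩)).card := by
    congr 1
    ext l
    simp only [Finset.mem_filter, Finset.mem_univ, true_and]
    exact ⟨fun h => by rw [h], fun h => hJ h⟩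
  have h5 : (Finset.univ.filter (fun l => J l = bar ⟨i, φ⟩)).card =
      (Finset.univ.filter (fun l => J' (J l) =
        ⟨i, ComplexEmbedding.conjugate (j.comp φ)⟩)).card := by
    congr 1
    ext l
    simp only [Finset.mem_filter, Finset.mem_univ, true_and]
    have h6 : J' (bar ⟨i, φ⟩) = ⟨i, ComplexEmbedding.conjugate (j.comp φ)⟩ := by
      simp only [J', bar]
      rw [comp_cbar]
    rw [← h6]
    exact ⟨fun h => by rw [h], fun h => hJ h⟩
  rw [h4, h5]
  exact_mod_cast h10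

end family

section tate

variable {p : ℕ} [Fact p.Prime] {a : ℕ} {I : Type} [Fintype I] {K : I → Type}
  [∀ i, Field (K i)] [∀ i, NumberField (K i)] [∀ i, IsCMField (K i)] {g : I → ℕ} {f : I → ℤ[X]}
  {π : ∀ i, K i}

omit [∀ i, IsCMField (K i)] in
theorem charpoly_eq {k : Type*} [Field k] [CharZero k]
    (hmin : ∀ i, minpoly ℚ (π i) = (f i).map (Int.castRingHom ℚ)) :
    ∏ i, (f i).map (Int.castRingHom k) = ∏ i, (minpoly ℚ (π i)).map (algebraMap ℚ k) := by
  refine Finset.prod_congr rfl fun i _ => ?_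
  rw [hmin, Polynomial.map_map, RingHom.ext_int ((algebraMap ℚ k).comp (Int.castRingHom ℚ))
    (Int.castRingHom k)]

/-- **The Tate conjecture for all powers.** -/
theorem powers_aux (ha : 0 < a)
    (hf : ∀ i, f i ∈ weilPolys (p ^ a) (g i)) (hgen : ∀ i, IsGeneric (f i))
    (hdiff : Pairwise fun i j => spl (f i) ≠ spl (f j))
    (hadj : ∀ i, IntermediateField.adjoin ℚ {π i} = ⊤)
    (hw : ∀ i, π i * IsCMField.complexConj (K i) (π i) = (p ^ a : ℕ))
    (hmin : ∀ i, minpoly ℚ (π i) = (f i).map (Int.castRingHom ℚ))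
    (hroot : ∀ i (φ : K i →+* ℂ), aeval (φ (π i)) (f i) = 0)
    (hinj : ∀ i, ∀ φ ψ : K i →+* ℂ, φ (π i) = ψ (π i) → φ = ψ)
    (hsurj : ∀ i z, aeval z (f i) = 0 → ∃ φ : K i →+* ℂ, φ (π i) = z) (ℓ : ℕ) [Fact ℓ.Prime] :
    TatePowers (p ^ a) f ℓ := by
  have hq : 0 < p ^ a := pow_pos (Fact.out : p.Prime).pos a
  have hang : MaximalAngleRank (p ^ a) π := angle hq hf hgen hdiff hroot hinj hsurj
  have hw' : ∀ i, π i * IsCMField.complexConj (K i) (π i) = (p : K i) ^ a := by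
    intro i
    rw [hw i, Nat.cast_pow]
  intro V Γ _ _ _ _ ρ χ ω D C hR hC hF n m x hx
  obtain ⟨L, hL1, hL2, j, h⟩ := Pool.Agent.H204R3.CM.exists_galois K
  have hF' : HasFrobenius ρ χ p a π := by
    obtain ⟨γ, h1, h2⟩ := hF
    refine ⟨γ, ?_, ?_⟩
    · rw [h1, Nat.cast_pow]
    · rw [h2]
      exact charpoly_eq hmin
  have h1 := generated ha hadj hw' j h (neat_of_angle j hang) hR hF' n m x hx
  refine Submodule.span_le.2 ?_ h1
  rintro y ⟨B, hB, hy⟩
  exact wedge_mem (fun B y => hC.intersection n m B y) (fun l => hC.faltings n (B l) (hB l)) hy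

/-- **The products with other varieties.** -/
theorem times_aux
    (hf : ∀ i, f i ∈ weilPolys (p ^ a) (g i)) (hgen : ∀ i, IsGeneric (f i))
    (hdiff : Pairwise fun i j => spl (f i) ≠ spl (f j))
    (hadj : ∀ i, IntermediateField.adjoin ℚ {π i} = ⊤)
    (hw : ∀ i, π i * IsCMField.complexConj (K i) (π i) = (p ^ a : ℕ))
    (hmin : ∀ i, minpoly ℚ (π i) = (f i).map (Int.castRingHom ℚ))
    (hroot : ∀ i (φ : K i →+* ℂ), aeval (φ (π i)) (f i) = 0)
    (hinj : ∀ i, ∀ φ ψ : K i →+* ℂ, φ (π i) = ψ (π i) → φ = ψ)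
    (hsurj : ∀ i z, aeval z (f i) = 0 → ∃ φ : K i →+* ℂ, φ (π i) = z)
    (E : IntermediateField ℚ ℂ) [FiniteDimensional ℚ E] [IsGalois ℚ E] (r : ℕ)
    (hE : ∀ i, r < g i ∧ ¬ spl (f i) ≤ E) {S : Set ℂ} (hS : RankLEOver E r S) :
    TateTimes (p ^ a) f S := by
  classical
  have hq : 0 < p ^ a := pow_pos (Fact.out : p.Prime).pos a
  have hang : MaximalAngleRank (p ^ a) π := angle hq hf hgen hdiff hroot hinj hsurj
  have hw' : ∀ i, π i * IsCMField.complexConj (K i) (π i) = (p : K i) ^ a := by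
    intro i
    rw [hw i, Nat.cast_pow]
  intro k _ _ V _ _ _ M _ _ _ Γ _ ρ τ χ ω γ hT hF hM
  obtain ⟨hss, halt, hnd, hωρ⟩ := hT
  obtain ⟨h, hh0, hhγ, hhS⟩ := hM
  have hrank : RankLEOver E r {z : ℂ | aeval z h = 0} := by
    obtain ⟨u, hu0, hu⟩ := hS
    exact ⟨u, hu0, fun z hz => hu z (hhS z hz)⟩
  obtain ⟨hχ, hγ⟩ := hF
  have hχ' : χ γ = (p : k) ^ a := by
    rw [hχ, Nat.cast_pow]
  have hγ' : (ρ γ).charpoly = ∏ i, (minpoly ℚ (π i)).map (algebraMap ℚ k) := by
    rw [hγ]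
    exact charpoly_eq hmin
  obtain ⟨L, hLa, hLb, j, hemb, hroots⟩ := exists_galois_roots K h hh0
  have hneat : Neat p a π L := neat_of_angle j hang
  have hun : ∀ β : L, Polynomial.aeval β h = 0 → ∀ i, Forces π β i := by
    intro β hβ i
    have hα : Polynomial.aeval (j β) h = 0 := by
      have h1 := Polynomial.aeval_algHom_apply (RingHom.equivRatAlgHom L ℂ j) β h
      rw [hβ, map_zero] at h1
      exact h1
    exact forces hq hf hgen hdiff hroot hinj hsurj E r hE hrank j β hα i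
  have hss' : ∀ Δ : Subgroup Γ, Δ.FiniteIndex → SemiUnder (ρ '' (Δ : Set Γ)) := by
    intro Δ hΔ U hU
    obtain ⟨U', h1, h2⟩ := hss Δ hΔ U (fun s hs u hu => hU _ ⟨s, hs, rfl⟩ u hu)
    refine ⟨U', ?_, h1⟩
    rintro _ ⟨s, hs, rfl⟩ u hu
    exact h2 s hs u hu
  constructor
  · intro n m x hx
    have h1 := final_step ρ χ τ x hx (fun l => alt_of_comp ρ χ _ (fun c => by
      have h2 := comp_mem (L := L) ρ χ τ hadj hw' j hemb hneat ω halt hnd hωρ hss' γ hχ' hγ' hun
        hroots hhγ (component_eqv hx c) l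
      exact h2))
    refine Submodule.span_mono ?_ h1
    rintro x ⟨y, ⟨B, hB, hy⟩, w, hw, hx⟩
    refine ⟨B, w, hB, hw, fun v => ?_⟩
    rw [hx, hy]
  · intro n m x hx
    ext v
    have h1 : v = fun l => ∑ i, Pi.single i (v l i) := by
      funext l
      exact (Finset.univ_sum_single (v l)).symm
    have h2 : x v = ∑ c : Fin (2 * m + 1) → Fin n,
        x.toMultilinearMap.compLinearMap
          (fun l => LinearMap.single k (fun _ : Fin n => V) (c l)) (fun l => v l (c l)) := by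
      conv_lhs => rw [h1]
      exact x.toMultilinearMap.map_sum (fun l i => Pi.single i (v l i))
    rw [h2]
    refine Finset.sum_eq_zero fun c _ => ?_
    have h3 := odd_zero (L := L) ρ χ τ hadj hw' j hemb hneat ω halt hnd hωρ γ hχ' hγ' hun hroots
        hhγ (κ := Fin (2 * m + 1)) (by
          rw [Fintype.card_fin]
          exact ⟨m, rfl⟩) (component_eqv hx c)
    rw [h3]
    rfl

end tate

section

variable {p : ℕ} [Fact p.Prime] {a : ℕ} {I : Type} [Fintype I] {g : I → ℕ} {f : I → ℤ[X]}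

/-- **The theorem.** -/
theorem main (ha : 0 < a)
    (hf : ∀ i, f i ∈ weilPolys (p ^ a) (g i)) (hgen : ∀ i, IsGeneric (f i))
    (hdiff : Pairwise fun i j => spl (f i) ≠ spl (f j)) :
    (∀ (ℓ : ℕ) [Fact ℓ.Prime], TatePowers (p ^ a) f ℓ) ∧
      ∀ (E : IntermediateField ℚ ℂ) [FiniteDimensional ℚ E] [IsGalois ℚ E] (r : ℕ) (S : Set ℂ),
        (∀ i, r < g i ∧ ¬ spl (f i) ≤ E) → RankLEOver E r S → TateTimes (p ^ a) f S := by
  have hq : 0 < p ^ a := pow_pos (Fact.out : p.Prime).pos a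
  choose K h1 h2 h3 π hadj hw hmin hroot hinj hsurj using
    fun i => exists_field hq (hf i) (hgen i)
  exact ⟨fun ℓ _ => powers_aux ha hf hgen hdiff hadj hw hmin hroot hinj hsurj ℓ,
    fun E _ _ r S hE hS => times_aux hf hgen hdiff hadj hw hmin hroot hinj hsurj E r hE hS⟩

end

end Pool.Agent.V8H88.NF
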